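import Pool.Agent.Helper56.LD.Goals

/-!
Packet LD-CO4 (MP_0152c0_gt): matching along main edges.
-/

set_option autoImplicit false

namespace Pool.Agent.Helper27.LD

open Set Filter Topology
open Pool.Agent.Helper56.LD

lemma main_or_aux (l : Lab) : IsMain l ∨ IsAux l := by
  rcases l with τ | q
  · exact Or.inl ⟨τ, rfl⟩
  · exact Or.inr ⟨q, rfl⟩

lemma not_main_of_aux {l : Lab} (h : IsAux l) : ¬ IsMain l := by
  rintro ⟨τ, h1⟩
  obtain ⟨q, h2⟩ := h
  rw [h1] at h2
  cases h2

lemma aux_of_not_main {l : Lab} (h : ¬ IsMain l) : IsAux l := (main_or_aux l).resolve_left h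

lemma sat_sub {L : Type} {b : ℕ → L → Prop} {E A B : Set (ℕ → L)}
    (h : ∀ s ∈ A, ∃ s' ∈ B, Eqv b s s') : sat b E A ⊆ sat b E B := by
  rintro e ⟨he, s, hs, hes⟩
  obtain ⟨s', hs', h2⟩ := h s hs
  refine ⟨he, s', hs', fun n => ⟨(hes n).1.trans (h2 n).1, fun hn => ?_⟩⟩
  rw [(hes n).2 hn]
  exact (h2 n).2 (fun h3 => hn ((hes n).1.mpr h3))

lemma eqv_refl {L : Type} (b : ℕ → L → Prop) (e : ℕ → L) : Eqv b e e :=
  fun _ => ⟨Iff.rfl, fun _ => rfl⟩

lemma eqv_update {b : ℕ → Lab → Prop} {e : ℕ → Lab} {q : ℕ} {x : Lab}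
    (hU : UB b e q) (hU' : UB b (Function.update e q x) q) :
    Eqv b e (Function.update e q x) := by
  have hne : ∀ j, j ≠ q → Function.update e q x j = e j := fun j hj => by
    simp [Function.update_of_ne hj]
  intro N
  constructor
  · constructor
    · intro h j h1 h2
      by_cases hj : j = q
      · exact hU' j h1 (by omega)
      · rw [hne j hj]; exact h j h1 h2
    · intro h j h1 h2
      by_cases hj : j = q
      · exact hU j h1 (by omega)
      · have := h j h1 h2
        rwa [hne j hj] at this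
  · intro h
    by_cases hj : N = q
    · subst hj; exact absurd hU h
    · rw [hne N hj]

lemma upd_mem {e : ℕ → Lab} (he : e ∈ ES) {q : ℕ} {x : Lab} (h1 : Tr (q + 1) (e (q + 1)) x)
    (h2 : ∀ k, q = k + 1 → Tr (k + 1) x (e k)) : Function.update e q x ∈ ES := by
  have hne : ∀ j, j ≠ q → Function.update e q x j = e j := fun j hj => by
    simp [Function.update_of_ne hj]
  have hq : Function.update e q x q = x := by simp
  intro j
  by_cases hj : j = q
  · subst hj
    rw [hq, hne (j + 1) (by omega)]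
    exact h1
  · by_cases hj1 : j + 1 = q
    · rw [hj1, hq, hne j hj, ← hj1]
      exact h2 j hj1.symm
    · rw [hne j hj, hne (j + 1) hj1]
      exact he j

lemma SS_main {N : ℕ} {a : ℕ → Lab} (h : IsMain (a N)) (e : ℕ → Lab) :
    e ∈ SS N a ↔ e ∈ ES ∧ MainC N a e := by
  constructor
  · rintro ⟨he, h1, -⟩
    exact ⟨he, h1 N ⟨le_rfl, h, fun j h1 h2 => by omega⟩⟩
  · rintro ⟨he, h1⟩
    refine ⟨he, fun N' hN' => ?_, fun κ τ hh => ?_⟩
    · obtain ⟨h2, -, h4⟩ := hN'
      have : N' = N := by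
        by_contra hne
        exact not_main_of_aux (h4 N le_rfl (by omega)) h
      rw [this]; exact h1
    · exact absurd h (not_main_of_aux ⟨_, hh⟩)

/-- abstract form of the main condition. -/
def MI (A N : ℕ) (m e : ℕ → Lab) : Prop :=
  (∀ l, A ≤ l → e l = m l) ∧
  ((16 * A - N ≤ A ∧ ((∀ l, A / 4 ≤ l → IsMain (e l) → e l = m l) ∨ 16 * A = N ∨
      IsAux (e (16 * A - N - 1)))) ∨
   (A < 16 * A - N ∧ (∀ l, A / 4 ≤ l → IsMain (e l) → e l = m l) ∧
      IsMain (e (max (A / 4) (2 * A + 1 - (16 * A - N))))))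

lemma mainI_iff (i N : ℕ) (a e : ℕ → Lab) : MainI i N a e ↔ MI (4 ^ i) N (mu N a) e := by
  have h2 : 4 ^ (i + 2) = 16 * 4 ^ i := by ring
  unfold MainI MI QQ
  rw [h2]

lemma mainC_iff {i N : ℕ} (h1 : 4 ^ (i + 1) < N) (h2 : N ≤ 4 ^ (i + 2)) (a e : ℕ → Lab) :
    MainC N a e ↔ MI (4 ^ i) N (mu N a) e := by
  rw [← mainI_iff]
  constructor
  · intro h
    exact h.2 i h1 h2
  · intro h
    refine ⟨fun h3 => ?_, fun j h3 h4 => ?_⟩
    · exfalso
      have : 4 ^ 1 ≤ 4 ^ (i + 1) := Nat.pow_le_pow_right (by norm_num) (by omega)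
      omega
    · have h5 : 4 ^ (j + 1) < 4 ^ (i + 2) := lt_of_lt_of_le h3 h2
      have h6 : 4 ^ (i + 1) < 4 ^ (j + 2) := lt_of_lt_of_le h1 h4
      have h7 := (Nat.pow_lt_pow_iff_right (by norm_num : 1 < 4)).mp h5
      have h8 := (Nat.pow_lt_pow_iff_right (by norm_num : 1 < 4)).mp h6
      have : j = i := by omega
      rw [this]; exact h

lemma par_ne {q n : ℕ} (h : q % 2 ≠ n % 2) : par q ≠ par n := by
  unfold par
  rcases Nat.mod_two_eq_zero_or_one q with h1 | h1 <;>
    rcases Nat.mod_two_eq_zero_or_one n with h2 | h2 <;> simp [h1, h2] <;> omega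

section step

variable {A n : ℕ} {m m' : ℕ → Lab} {b : ℕ → Lab → Prop}

lemma step_fwd (hA : 1 ≤ A) (hn : n + 1 ≤ 16 * A)
    (hup : ∀ e ∈ ES, ∀ i j : ℕ, i ≤ j → IsMain (e i) → IsMain (e j))
    (hmm : ∀ l, A ≤ l → m' l = m l) (hmm' : n + 1 ≠ 16 * A → m' = m)
    {e : ℕ → Lab} (he : e ∈ ES) (h : MI A n m e) : MI A (n + 1) m' e := by
  obtain ⟨hT, h⟩ := h
  have hT' : ∀ l, A ≤ l → e l = m' l := fun l hl => by rw [hmm l hl]; exact hT l hl
  refine ⟨hT', ?_⟩
  by_cases hp : n + 1 = 16 * A
  · exact Or.inl ⟨by omega, Or.inr (Or.inl hp.symm)⟩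
  have hme : m' = m := hmm' hp
  rw [hme]
  rcases h with ⟨h1, h2 | h2 | h2⟩ | ⟨h1, h2, h3⟩
  · exact Or.inl ⟨by omega, Or.inl h2⟩
  · omega
  · refine Or.inl ⟨by omega, Or.inr (Or.inr ?_)⟩
    refine aux_of_not_main (fun h3 => not_main_of_aux h2 ?_)
    exact hup e he _ _ (by omega) h3
  · by_cases h4 : A < 16 * A - (n + 1)
    · exact Or.inr ⟨h4, h2, hup e he _ _ (by omega) h3⟩
    · exact Or.inl ⟨by omega, Or.inl h2⟩

lemma step_bwd (hA : 1 ≤ A) (hn : n + 1 ≤ 16 * A)
    (hup : ∀ e ∈ ES, ∀ i j : ℕ, i ≤ j → IsMain (e i) → IsMain (e j))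
    (hm : m ∈ ES) (hmM : ∀ l, IsMain (m l))
    (hmm : ∀ l, A ≤ l → m' l = m l) (hmm' : n + 1 ≠ 16 * A → m' = m)
    (hb : ∀ j l, b j l ↔ (IsMain l ∧ par j = par n))
    {e : ℕ → Lab} (he : e ∈ ES) (h : MI A (n + 1) m' e) :
    ∃ e' ∈ ES, MI A n m e' ∧ Eqv b e e' := by
  obtain ⟨hT', h⟩ := h
  have hT : ∀ l, A ≤ l → e l = m l := fun l hl => by rw [← hmm l hl]; exact hT' l hl
  have hdown : ∀ i j : ℕ, i ≤ j → IsAux (e j) → IsAux (e i) := fun i j hij hj =>
    aux_of_not_main (fun h3 => not_main_of_aux hj (hup e he i j hij h3))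
  have hne : ∀ (q : ℕ) (x : Lab) (j : ℕ), j ≠ q → Function.update e q x j = e j :=
    fun q x j hj => by simp [Function.update_of_ne hj]
  have heq : ∀ (q : ℕ) (x : Lab), Function.update e q x q = x := fun q x => by simp
  by_cases hp : n + 1 = 16 * A
  · -- p0 = 0
    rcases main_or_aux (e 0) with h0 | h0
    · refine ⟨Function.update e 0 (Sum.inr (false, 0)), ?_, ⟨?_, ?_⟩, ?_⟩
      · refine upd_mem he ?_ (fun k hk => by omega)
        obtain ⟨τ, hτ⟩ := hup e he 0 (0 + 1) (by omega) h0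
        rw [hτ]
        trivial
      · intro l hl
        rw [hne 0 _ l (by omega)]
        exact hT l hl
      · refine Or.inl ⟨by omega, Or.inr (Or.inr ?_)⟩
        have : 16 * A - n - 1 = 0 := by omega
        rw [this, heq]
        exact ⟨_, rfl⟩
      · exact eqv_update (fun j h1 h2 => by omega) (fun j h1 h2 => by omega)
    · refine ⟨e, he, ⟨hT, Or.inl ⟨by omega, Or.inr (Or.inr ?_)⟩⟩, eqv_refl b e⟩
      have : 16 * A - n - 1 = 0 := by omega
      rw [this]
      exact h0
  have hme : m' = m := hmm' hp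
  rw [hme] at h
  rcases h with ⟨h1, h2 | h2 | h2⟩ | ⟨h1, h2, h3⟩
  · -- QQ
    by_cases h4 : 16 * A - n ≤ A
    · exact ⟨e, he, ⟨hT, Or.inl ⟨h4, Or.inl h2⟩⟩, eqv_refl b e⟩
    · refine ⟨e, he, ⟨hT, Or.inr ⟨by omega, h2, ?_⟩⟩, eqv_refl b e⟩
      have h5 : max (A / 4) (2 * A + 1 - (16 * A - n)) = A := by omega
      rw [h5, hT A le_rfl]
      exact hmM A
  · omega
  · by_cases h4 : 16 * A - n ≤ A
    · rcases main_or_aux (e (16 * A - n - 1)) with h5 | h5
      · -- update
        obtain ⟨q, hq⟩ : ∃ q, 16 * A - n - 1 = q + 1 := ⟨16 * A - n - 2, by omega⟩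
        have hq2 : 16 * A - (n + 1) - 1 = q := by omega
        rw [hq] at h5
        rw [hq2] at h2
        have h6 : IsMain (e (q + 1 + 1)) := hup e he _ _ (by omega) h5
        refine ⟨Function.update e (q + 1) (e q), ?_, ⟨?_, ?_⟩, ?_⟩
        · refine upd_mem he ?_ (fun k hk => ?_)
          · obtain ⟨τ, hτ⟩ := h6
            obtain ⟨x, hx⟩ := h2
            rw [hτ, hx]
            trivial
          · have : k = q := by omega
            subst this
            obtain ⟨x, hx⟩ := h2
            rw [hx]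
            exact ⟨rfl, Or.inl rfl⟩
        · intro l hl
          rw [hne _ _ l (by omega)]
          exact hT l hl
        · refine Or.inl ⟨h4, Or.inr (Or.inr ?_)⟩
          rw [hq, heq]
          exact h2
        · apply eqv_update
          · intro j hj1 hj2 hbj
            rw [hb] at hbj
            by_cases hj : j = q + 1
            · subst hj
              exact par_ne (by omega) hbj.2
            · exact not_main_of_aux (hdown j q (by omega) h2) hbj.1
          · intro j hj1 hj2 hbj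
            rw [hb] at hbj
            by_cases hj : j = q + 1
            · subst hj
              rw [heq] at hbj
              exact not_main_of_aux h2 hbj.1
            · rw [hne _ _ j hj] at hbj
              exact not_main_of_aux (hdown j q (by omega) h2) hbj.1
      · exact ⟨e, he, ⟨hT, Or.inl ⟨h4, Or.inr (Or.inr h5)⟩⟩, eqv_refl b e⟩
    · have h6 : 16 * A - (n + 1) - 1 = A - 1 := by omega
      rw [h6] at h2
      refine ⟨e, he, ⟨hT, Or.inr ⟨by omega, ?_, ?_⟩⟩, eqv_refl b e⟩
      · intro l _ hl2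
        apply hT
        by_contra hl3
        exact not_main_of_aux (hdown l (A - 1) (by omega) h2) hl2
      · have h5 : max (A / 4) (2 * A + 1 - (16 * A - n)) = A := by omega
        rw [h5, hT A le_rfl]
        exact hmM A
  · -- second alternative
    rcases main_or_aux (e (max (A / 4) (2 * A + 1 - (16 * A - n)))) with h5 | h5
    · exact ⟨e, he, ⟨hT, Or.inr ⟨by omega, h2, h5⟩⟩, eqv_refl b e⟩
    · have h6 : max (A / 4) (2 * A + 1 - (16 * A - n)) ≠
          max (A / 4) (2 * A + 1 - (16 * A - (n + 1))) := by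
        intro h7
        rw [h7] at h5
        exact not_main_of_aux h5 h3
      obtain ⟨q, hq⟩ : ∃ q, 2 * A + 1 - (16 * A - n) = q := ⟨_, rfl⟩
      have h7 : 2 * A + 1 - (16 * A - (n + 1)) = q + 1 := by omega
      have h8 : A / 4 ≤ q := by omega
      have h9 : max (A / 4) (2 * A + 1 - (16 * A - n)) = q := by omega
      have h10 : max (A / 4) (2 * A + 1 - (16 * A - (n + 1))) = q + 1 := by omega
      rw [h9] at h5
      rw [h10] at h3
      have h11 : e (q + 1) = m (q + 1) := h2 (q + 1) (by omega) h3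
      have hqA : q < A := by omega
      refine ⟨Function.update e q (m q), ?_, ⟨?_, Or.inr ⟨by omega, ?_, ?_⟩⟩, ?_⟩
      · refine upd_mem he ?_ (fun k hk => ?_)
        · rw [h11]
          exact hm q
        · obtain ⟨τ, hτ⟩ := hmM q
          obtain ⟨x, hx⟩ := hdown k q (by omega) h5
          rw [hτ, hx]
          trivial
      · intro l hl
        rw [hne _ _ l (by omega)]
        exact hT l hl
      · intro l hl1 hl2
        by_cases hl : l = q
        · subst hl; rw [heq]
        · rw [hne _ _ l hl] at hl2 ⊢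
          exact h2 l hl1 hl2
      · rw [h9, heq]
        exact hmM q
      · apply eqv_update
        · intro j hj1 hj2 hbj
          rw [hb] at hbj
          exact not_main_of_aux (hdown j q (by omega) h5) hbj.1
        · intro j hj1 hj2 hbj
          rw [hb] at hbj
          by_cases hj : j = q
          · subst hj
            exact par_ne (by omega) hbj.2
          · rw [hne _ _ j hj] at hbj
            exact not_main_of_aux (hdown j q (by omega) h5) hbj.1

end step

theorem matMain (hES : StmtES) (hMu : StmtMu) : StmtMatMain := by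
  intro u n a hn ha hmain
  obtain ⟨-, -, hup, -, -⟩ := hES
  obtain ⟨hmES, hmM, hm3, hm4⟩ := hMu a ha n hmain
  have hmain' : IsMain (a (n + 1)) := hup a ha n (n + 1) (by omega) hmain
  have hb : ∀ j l, blk u n (ltr u n (a n)) j l ↔ (IsMain l ∧ par j = par n) := by
    intro j l
    obtain ⟨τ, hτ⟩ := hmain
    rw [hτ]
    rcases l with σ | q
    · simp [ltr, blk, IsMain]
    · simp [ltr, blk, IsMain]
  have key : ∀ (P : (ℕ → Lab) → Prop), (∀ e ∈ ES, MainC n a e ↔ P e) →
      (∀ e ∈ ES, MainC (n + 1) a e ↔ P e) →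
      sat (blk u n (ltr u n (a n))) ES (SS n a) =
        sat (blk u n (ltr u n (a n))) ES (SS (n + 1) a) := by
    intro P h1 h2
    have : SS n a = SS (n + 1) a := by
      ext e
      rw [SS_main hmain, SS_main hmain']
      constructor
      · rintro ⟨he, h⟩
        exact ⟨he, (h2 e he).mpr ((h1 e he).mp h)⟩
      · rintro ⟨he, h⟩
        exact ⟨he, (h1 e he).mpr ((h2 e he).mp h)⟩
    rw [this]
  by_cases c1 : n + 1 ≤ 4
  · -- case 1
    have hmm : mu (n + 1) a = mu n a := funext fun l => hm4 l (by omega)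
    have hpow : ∀ i : ℕ, 4 ≤ 4 ^ (i + 1) := fun i => by
      have : 4 ^ 1 ≤ 4 ^ (i + 1) := Nat.pow_le_pow_right (by norm_num) (by omega)
      simpa using this
    refine key (fun e => ∀ l, e l = mu n a l) (fun e _ => ?_) (fun e _ => ?_)
    · constructor
      · intro h; exact h.1 (by omega)
      · intro h
        exact ⟨fun _ => h, fun i h1 _ => by have := hpow i; omega⟩
    · constructor
      · intro h l
        rw [← hmm]
        exact h.1 (by omega) l
      · intro h
        refine ⟨fun _ => ?_, fun i h1 _ => by have := hpow i; omega⟩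
        rw [hmm]; exact h
  by_cases c2 : n = 4
  · subst c2
    have hmm : mu (4 + 1) a = mu 4 a := by
      refine (hm3 ?_).2
      rintro ⟨i, hi⟩
      rcases i with _ | _ | i
      · norm_num at hi
      · norm_num at hi
      · have : 4 ^ 2 ≤ 4 ^ (i + 1 + 1) := Nat.pow_le_pow_right (by norm_num) (by omega)
        omega
    refine key (fun e => ∀ l, e l = mu 4 a l) (fun e _ => ?_) (fun e he => ?_)
    · constructor
      · intro h; exact h.1 le_rfl
      · intro h
        refine ⟨fun _ => h, fun i h1 _ => ?_⟩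
        have : 4 ^ 1 ≤ 4 ^ (i + 1) := Nat.pow_le_pow_right (by norm_num) (by omega)
        omega
    · rw [mainC_iff (i := 0) (by norm_num) (by norm_num), hmm]
      constructor
      · rintro ⟨-, ⟨h1, -⟩ | ⟨-, h2, h3⟩⟩
        · norm_num at h1
        · intro l
          refine h2 l (by norm_num) (hup e he _ l ?_ h3)
          norm_num
      · intro h
        refine ⟨fun l _ => h l, Or.inr ⟨by norm_num, fun l _ _ => h l, ?_⟩⟩
        rw [h]
        exact hmM _
  -- general index
  obtain ⟨i, hi1, hi2⟩ : ∃ i, 4 ^ (i + 1) < n ∧ n ≤ 4 ^ (i + 2) := by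
    have hex : ∃ i, n ≤ 4 ^ (i + 2) := ⟨n, by
      have : n < 4 ^ n := Nat.lt_pow_self (by norm_num)
      have h2 : 4 ^ n ≤ 4 ^ (n + 2) := Nat.pow_le_pow_right (by norm_num) (by omega)
      omega⟩
    classical
    refine ⟨Nat.find hex, ?_, Nat.find_spec hex⟩
    rcases Nat.eq_zero_or_pos (Nat.find hex) with h0 | h0
    · rw [h0]; norm_num; omega
    · have := Nat.find_min hex (m := Nat.find hex - 1) (by omega)
      have h2 : Nat.find hex - 1 + 2 = Nat.find hex + 1 := by omega
      rw [h2] at this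
      omega
  by_cases c3 : n = 4 ^ (i + 2)
  · -- case 3
    have hA : 1 ≤ 4 ^ i := Nat.one_le_pow _ _ (by norm_num)
    have e1 : 4 ^ (i + 2) = 16 * 4 ^ i := by ring
    have e2 : 4 ^ (i + 1 + 2) = 64 * 4 ^ i := by ring
    have e3 : 4 ^ (i + 1 + 1) = 16 * 4 ^ i := by ring
    have e4 : 4 ^ (i + 1) = 4 * 4 ^ i := by ring
    have hmm : mu (n + 1) a = mu n a := by
      refine (hm3 ?_).2
      rintro ⟨j, hj⟩
      have h1 : 4 ^ (i + 2) < 4 ^ j := by omega
      have h2 : 4 ^ j < 4 ^ (i + 1 + 2) := by rw [e2]; omega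
      have h3 := (Nat.pow_lt_pow_iff_right (by norm_num : 1 < 4)).mp h1
      have h4 := (Nat.pow_lt_pow_iff_right (by norm_num : 1 < 4)).mp h2
      omega
    refine key (fun e => ∀ l, 4 ^ i ≤ l → e l = mu n a l) (fun e _ => ?_) (fun e he => ?_)
    · rw [mainC_iff hi1 hi2]
      constructor
      · intro h; exact h.1
      · intro h
        exact ⟨h, Or.inl ⟨by omega, Or.inr (Or.inl (by omega))⟩⟩
    · rw [mainC_iff (i := i + 1) (by omega) (by omega), hmm, e4]
      have hdiv : 4 * 4 ^ i / 4 = 4 ^ i := by omega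
      have hmax : max (4 * 4 ^ i / 4) (2 * (4 * 4 ^ i) + 1 - (16 * (4 * 4 ^ i) - (n + 1))) =
          4 ^ i := by omega
      constructor
      · rintro ⟨-, ⟨h1, -⟩ | ⟨-, h2, h3⟩⟩
        · omega
        · intro l hl
          rw [hmax] at h3
          exact h2 l (by omega) (hup e he _ l hl h3)
      · intro h
        refine ⟨fun l hl => h l (by omega), Or.inr ⟨by omega, fun l hl _ => h l (by omega), ?_⟩⟩
        rw [hmax, h _ le_rfl]
        exact hmM _
  · -- case 4
    have hA : 1 ≤ 4 ^ i := Nat.one_le_pow _ _ (by norm_num)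
    have e1 : 4 ^ (i + 2) = 16 * 4 ^ i := by ring
    have hmm : ∀ l, 4 ^ i ≤ l → mu (n + 1) a l = mu n a l := fun l hl => hm4 l (by omega)
    have hmm' : n + 1 ≠ 16 * 4 ^ i → mu (n + 1) a = mu n a := by
      intro hne
      refine (hm3 ?_).2
      rintro ⟨j, hj⟩
      have h1 : 4 ^ (i + 1) < 4 ^ j := by omega
      have h2 : 4 ^ j < 4 ^ (i + 2) := by omega
      have h3 := (Nat.pow_lt_pow_iff_right (by norm_num : 1 < 4)).mp h1
      have h4 := (Nat.pow_lt_pow_iff_right (by norm_num : 1 < 4)).mp h2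
      omega
    apply Subset.antisymm
    · apply sat_sub
      intro s hs
      rw [SS_main hmain] at hs
      refine ⟨s, ?_, eqv_refl _ s⟩
      rw [SS_main hmain']
      refine ⟨hs.1, ?_⟩
      rw [mainC_iff (i := i) (by omega) (by omega)]
      exact step_fwd hA (by omega) hup hmm hmm' hs.1 ((mainC_iff hi1 hi2 a s).mp hs.2)
    · apply sat_sub
      intro s hs
      rw [SS_main hmain'] at hs
      obtain ⟨e', he', h1, h2⟩ := step_bwd hA (by omega) hup hmES hmM hmm hmm' hb hs.1
        ((mainC_iff (i := i) (by omega) (by omega) a s).mp hs.2)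
      refine ⟨e', ?_, h2⟩
      rw [SS_main hmain]
      exact ⟨he', (mainC_iff hi1 hi2 a e').mpr h1⟩

end Pool.Agent.Helper27.LD
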